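import Pool.Agent.Work.MP_e17eac_co.Bd.B19

/-!
TROP: the sampled form of the tropical theorem (Lemma 2 of note 2759).

`n` lines `θ ↦ f y + θ * c y` with distinct `f` and distinct `c`; sample points `θ 0 < θ 1 < …` with
`θ (j+1) ≥ n² θ j`; `S j` = the `k` lowest lines at `θ j`. Then
`Σ_j |S (j+1) \ S j| ≤ (1 + 2 L)^(L / w) (3 + 2 L² 2^w) n`, `L = log₂ n`, for all `w ≥ 1`.
-/
set_option autoImplicit false
set_option linter.unusedSectionVars false
set_option linter.unusedVariables false

namespace Pool.Agent.Work.MP_e17eac_co.TROP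

open Finset

variable {X : Type*} [DecidableEq X] [Fintype X]

/-- ratio of the gaps -/
noncomputable def rat (f c : X → ℝ) (p : GN f × GN c) : ℝ := gap f p.1 / gap c p.2

/-- the order of the pairs of nodes -/
def KK (f c : X → ℝ) (p q : GN f × GN c) : Prop :=
  rat f c p < rat f c q ∨ (rat f c p = rat f c q ∧
    (KL f p.1 q.1 ∨ (p.1 = q.1 ∧ KL c q.2 p.2)))

theorem KK.rat_le {f c : X → ℝ} {p q : GN f × GN c} (h : KK f c p q) :
    rat f c p ≤ rat f c q := by
  rcases h with h | h
  · exact h.le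
  · exact h.1.le

theorem KK_sto {f c : X → ℝ} (hf : Function.Injective f) (hc : Function.Injective c) :
    STO (KK f c) where
  irr y := by
    rintro (h | ⟨_, h | h⟩)
    · exact lt_irrefl _ h
    · exact KL.irrefl _ h
    · exact KL.irrefl _ h.2
  tot y z hyz := by
    rcases lt_trichotomy (rat f c y) (rat f c z) with h | h | h
    · exact Or.inl (Or.inl h)
    · by_cases h1 : y.1 = z.1
      · have h2 : y.2 ≠ z.2 := fun e => hyz (Prod.ext h1 e)
        rcases KL.tot hc h2 with h3 | h3
        · exact Or.inr (Or.inr ⟨h.symm, Or.inr ⟨h1.symm, h3⟩⟩)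
        · exact Or.inl (Or.inr ⟨h, Or.inr ⟨h1, h3⟩⟩)
      · rcases KL.tot hf h1 with h3 | h3
        · exact Or.inl (Or.inr ⟨h, Or.inl h3⟩)
        · exact Or.inr (Or.inr ⟨h.symm, Or.inl h3⟩)
    · exact Or.inr (Or.inl h)
  tra x y z h h' := by
    rcases h with h | ⟨h, h1⟩ <;> rcases h' with h' | ⟨h', h1'⟩
    · exact Or.inl (h.trans h')
    · exact Or.inl (by rw [← h']; exact h)
    · exact Or.inl (by rw [h]; exact h')
    · refine Or.inr ⟨h.trans h', ?_⟩
      rcases h1 with h1 | h1 <;> rcases h1' with h1' | h1'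
      · exact Or.inl (h1.trans h1')
      · exact Or.inl (by rw [← h1'.1]; exact h1)
      · exact Or.inl (by rw [h1.1]; exact h1')
      · exact Or.inr ⟨h1.1.trans h1'.1, h1'.2.trans h1.2⟩

theorem KK_m1 {f c : X → ℝ} (hf : Function.Injective f) (hc : Function.Injective c)
    (A A' : GN f) (B : GN c) (h : (gtree f hf).Bel A A') : KK f c (A, B) (A', B) := by
  have h1 := bel_KL f hf h
  have h2 : rat f c (A, B) ≤ rat f c (A', B) :=
    div_le_div_of_nonneg_right h1.gap_le (gap_pos c B).le
  rcases h2.lt_or_eq with h3 | h3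
  · exact Or.inl h3
  · exact Or.inr ⟨h3, Or.inl h1⟩

theorem KK_m2 {f c : X → ℝ} (hf : Function.Injective f) (hc : Function.Injective c)
    (A : GN f) (B B' : GN c) (h : (gtree c hc).Bel B B') : KK f c (A, B') (A, B) := by
  have h1 := bel_KL c hc h
  have h2 : rat f c (A, B') ≤ rat f c (A, B) :=
    div_le_div_of_nonneg_left (gap_pos f A).le (gap_pos c B) h1.gap_le
  rcases h2.lt_or_eq with h3 | h3
  · exact Or.inl h3
  · exact Or.inr ⟨h3, Or.inr ⟨rfl, h1⟩⟩

open Classical in
/-- the pairs with ratio at most `Θ` -/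
noncomputable def DD (f c : X → ℝ) (Θ : ℝ) : Finset (GN f × GN c) :=
  univ.filter fun p => rat f c p ≤ Θ

/-- the stage of the threshold `Θ` -/
noncomputable def stg (f c : X → ℝ) (Θ : ℝ) : ℕ := (DD f c Θ).card

theorem stg_mono (f c : X → ℝ) {Θ Θ' : ℝ} (h : Θ ≤ Θ') : stg f c Θ ≤ stg f c Θ' := by
  classical
  apply card_le_card
  intro p hp
  simp only [DD, mem_filter, mem_univ, true_and] at hp ⊢
  exact hp.trans h

theorem stg_le (f c : X → ℝ) (Θ : ℝ) : stg f c Θ ≤ Fintype.card (GN f × GN c) :=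
  card_le_univ _

theorem Pi_stg {f c : X → ℝ} (hf : Function.Injective f) (hc : Function.Injective c) (Θ : ℝ)
    (A : GN f) (B : GN c) : Pi (KK f c) (stg f c Θ) A B ↔ gap f A ≤ Θ * gap c B := by
  classical
  unfold Pi stg
  rw [rk_low (KK_sto hf hc) (DD f c Θ) (fun y z hz h => by
    simp only [DD, mem_filter, mem_univ, true_and] at hz ⊢
    exact h.rat_le.trans hz)]
  simp only [DD, mem_filter, mem_univ, true_and, rat]
  rw [div_le_iff₀ (gap_pos c B)]

/-- the three orders lemma -/
theorem three {f c : X → ℝ} (hf : Function.Injective f) (hc : Function.Injective c) {θ : ℝ}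
    (h0 : 0 < θ) {p q : X}
    (o1 : Ord (gtree f hf) (gtree c hc) f c
      (Pi (KK f c) (stg f c (θ / Fintype.card X))) p q)
    (o2 : Ord (gtree f hf) (gtree c hc) f c
      (Pi (KK f c) (stg f c (θ * Fintype.card X))) p q) :
    f p + θ * c p < f q + θ * c q := by
  have hne : p ≠ q := by
    rintro rfl
    rcases o1 with h | h <;> exact lt_irrefl _ h.2
  have hV : (0 : ℝ) < Fintype.card X := by
    have : 0 < Fintype.card X := Fintype.card_pos_iff.2 ⟨p⟩
    exact_mod_cast this
  rcases lt_or_gt_of_ne (fun e => hne (hf e)) with h1 | h1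
  · rcases lt_or_gt_of_ne (fun e => hne (hc e)) with h2 | h2
    · have := mul_lt_mul_of_pos_left h2 h0
      linarith
    · rcases o2 with o2 | o2
      · exact absurd o2.2 (lt_asymm h2)
      · obtain ⟨A, hA⟩ := (gtree_ad f hf).ex p q h1
        obtain ⟨B, hB⟩ := (gtree_ad c hc).ex q p h2
        have h3 : ¬ Pi (KK f c) (stg f c (θ * Fintype.card X)) A B := fun h =>
          o2.1 ((pr_iff (Or.inl hA) (Or.inr hB)).2 h)
        rw [Pi_stg hf hc, not_le] at h3
        have h4 := (meet_gap f hf hA.1 hA.2).1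
        have h5 := (meet_gap c hc hB.1 hB.2).2
        have h6 := mul_lt_mul_of_pos_left h5 h0
        linarith
  · rcases lt_or_gt_of_ne (fun e => hne (hc e)) with h2 | h2
    · rcases o1 with o1 | o1
      · obtain ⟨A, hA⟩ := (gtree_ad f hf).ex q p h1
        obtain ⟨B, hB⟩ := (gtree_ad c hc).ex p q h2
        have h3 : Pi (KK f c) (stg f c (θ / Fintype.card X)) A B :=
          (pr_iff (Or.inr hA) (Or.inl hB)).1 o1.1
        rw [Pi_stg hf hc] at h3
        have h4 := (meet_gap f hf hA.1 hA.2).2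
        have h5 := (meet_gap c hc hB.1 hB.2).1
        have h6 := mul_le_mul_of_nonneg_left h5 h0.le
        have h7 := mul_le_mul_of_nonneg_left h3 hV.le
        have h8 : (Fintype.card X : ℝ) * (θ / Fintype.card X * gap c B) = θ * gap c B := by
          field_simp
        linarith
      · exact absurd o1.2 (lt_asymm h1)
    · rcases o1 with o1 | o1
      · exact absurd o1.2 (lt_asymm h2)
      · exact absurd o1.2 (lt_asymm h1)

theorem close {A M P : Finset X} (h1 : A.card = M.card) (h2 : A.card = P.card)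
    (h : ∀ p ∈ M, p ∈ P → ∀ q ∉ M, q ∉ P → q ∈ A → p ∈ A) :
    (A \ M).card ≤ (M \ P).card ∧ (A \ P).card ≤ (M \ P).card := by
  by_cases hA : A ⊆ M ∪ P
  · constructor
    · rw [card_sdiff_comm (s := M) (t := P) (by omega)]
      refine card_le_card fun x hx => ?_
      rw [mem_sdiff] at hx ⊢
      rcases mem_union.1 (hA hx.1) with h3 | h3
      · exact absurd h3 hx.2
      · exact ⟨h3, hx.2⟩
    · refine card_le_card fun x hx => ?_
      rw [mem_sdiff] at hx ⊢
      rcases mem_union.1 (hA hx.1) with h3 | h3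
      · exact ⟨h3, hx.2⟩
      · exact absurd h3 hx.2
  · obtain ⟨q, hq, hq'⟩ := not_subset.1 hA
    rw [mem_union, not_or] at hq'
    have hsub : M ∩ P ⊆ A := fun p hp =>
      h p (mem_inter.1 hp).1 (mem_inter.1 hp).2 q hq'.1 hq'.2 hq
    have h3 : (A \ (M ∩ P)).card = (M \ P).card := by
      have a1 := card_sdiff_add_card_eq_card hsub
      have a2 := card_sdiff_add_card_inter M P
      omega
    rw [← h3]
    constructor
    · refine card_le_card fun x hx => ?_
      rw [mem_sdiff] at hx ⊢
      exact ⟨hx.1, fun h => hx.2 (mem_inter.1 h).1⟩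
    · refine card_le_card fun x hx => ?_
      rw [mem_sdiff] at hx ⊢
      exact ⟨hx.1, fun h => hx.2 (mem_inter.1 h).2⟩

/-- THE SAMPLED TROPICAL THEOREM. -/
theorem samples (f c : X → ℝ) (hf : Function.Injective f) (hc : Function.Injective c)
    (J k w : ℕ) (hw : 1 ≤ w) (θ : ℕ → ℝ) (h0 : ∀ j ≤ J, 0 < θ j)
    (hθ : ∀ j < J, (Fintype.card X : ℝ) ^ 2 * θ j ≤ θ (j + 1)) (S : ℕ → Finset X)
    (hS : ∀ j ≤ J, (S j).card = k)
    (hv : ∀ j ≤ J, ∀ y ∈ S j, ∀ z ∉ S j, f y + θ j * c y ≤ f z + θ j * c z) :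
    ∑ j ∈ range J, (S (j + 1) \ S j).card ≤
      (1 + 2 * Nat.log 2 (Fintype.card X)) ^ (Nat.log 2 (Fintype.card X) / w) *
        ((3 + 2 * (Nat.log 2 (Fintype.card X) ^ 2 * 2 ^ w)) * Fintype.card X) := by
  classical
  by_cases hX : Fintype.card X ≤ 1
  · -- trivial case
    have h1 : ∑ j ∈ range J, (S (j + 1) \ S j).card = 0 := by
      refine sum_eq_zero fun j hj => ?_
      rw [mem_range] at hj
      rw [card_eq_zero, sdiff_eq_empty_iff_subset]
      have a1 := hS j hj.le
      have a2 := hS (j + 1) hj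
      intro x hx
      have a3 : 0 < (S (j + 1)).card := card_pos.2 ⟨x, hx⟩
      have a4 : 0 < (S j).card := by omega
      obtain ⟨y, hy⟩ := card_pos.1 a4
      have : Subsingleton X := Fintype.card_le_one_iff_subsingleton.1 hX
      rw [Subsingleton.elim x y]
      exact hy
    rw [h1]
    exact Nat.zero_le _
  · push Not at hX
    obtain ⟨x, y, hxy⟩ := Fintype.one_lt_card_iff.1 hX
    have nef : Nonempty (GN f) := by
      rcases lt_or_gt_of_ne (fun e => hxy (hf e)) with h | h
      · exact ⟨⟨x, y, h⟩⟩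
      · exact ⟨⟨y, x, h⟩⟩
    have nec : Nonempty (GN c) := by
      rcases lt_or_gt_of_ne (fun e => hxy (hc e)) with h | h
      · exact ⟨⟨x, y, h⟩⟩
      · exact ⟨⟨y, x, h⟩⟩
    have hkX : k ≤ Fintype.card X := by
      rw [← hS 0 (Nat.zero_le _)]
      exact card_le_univ _
    have a1 := gtree_ad f hf
    have a2 := gtree_ad c hc
    have a3 := KK_sto hf hc
    have a4 := KK_m1 (f := f) (c := c) hf hc
    have a5 := KK_m2 (f := f) (c := c) hf hc
    let ρ := mkRun k a1 a2 a3 a4 a5
    let F : ℕ → ℕ := fun i => ∑ t ∈ range i, ρ.c t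
    have hF : ∀ i j, i ≤ j → (ρ.S i \ ρ.S j).card + F i ≤ F j := by
      intro i j hij
      have b1 := ρ.sdiff_le hij
      have b2 : F i + ∑ t ∈ Ico i j, ρ.c t = F j := sum_range_add_sum_Ico _ hij
      omega
    have hFm : ∀ i j, i ≤ j → F i ≤ F j := by
      intro i j hij
      have := hF i j hij
      omega
    have hcard : ∀ i, (ρ.S i).card = k := by
      intro i
      have b1 := Si_card k a1 a2 a3 a4 a5 i
      have b2 : ρ.S i = Si (gtree f hf) (gtree c hc) f c (KK f c) k i := rfl
      rw [b2, b1]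
      exact min_eq_left hkX
    let V : ℝ := Fintype.card X
    have hV : (0 : ℝ) < V := by
      have : 0 < Fintype.card X := by omega
      exact Nat.cast_pos.2 this
    have hV1 : (1 : ℝ) ≤ V := by
      have : 1 ≤ Fintype.card X := by omega
      exact Nat.one_le_cast.2 this
    let s : ℕ → ℕ := fun j => stg f c (θ j / V)
    let t : ℕ → ℕ := fun j => stg f c (θ j * V)
    have hst : ∀ j ≤ J, s j ≤ t j := by
      intro j hj
      apply stg_mono
      rw [div_le_iff₀ hV]
      have b1 := h0 j hj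
      have b2 : θ j * 1 ≤ θ j * V := mul_le_mul_of_nonneg_left hV1 b1.le
      have b3 : θ j * V * 1 ≤ θ j * V * V :=
        mul_le_mul_of_nonneg_left hV1 (mul_nonneg b1.le hV.le)
      linarith
    have hts : ∀ j < J, t j ≤ s (j + 1) := by
      intro j hj
      apply stg_mono
      rw [le_div_iff₀ hV]
      have b1 := hθ j hj
      have b2 : θ j * V * V = V ^ 2 * θ j := by ring
      rw [b2]
      exact b1
    -- the sampled sets are close to the stages
    have hcl : ∀ j ≤ J, (S j \ ρ.S (s j)).card ≤ (ρ.S (s j) \ ρ.S (t j)).card ∧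
        (S j \ ρ.S (t j)).card ≤ (ρ.S (s j) \ ρ.S (t j)).card := by
      intro j hj
      refine close ((hS j hj).trans (hcard _).symm) ((hS j hj).trans (hcard _).symm) ?_
      intro p hp hp' q hq hq' hqA
      by_contra hpA
      have o1 := Si_ord k a1 a2 a3 a4 a5 (s j) hp hq
      have o2 := Si_ord k a1 a2 a3 a4 a5 (t j) hp' hq'
      have b1 := three hf hc (h0 j hj) o1 o2
      have b2 := hv j hj q hqA p hpA
      linarith
    have key : ∀ J' ≤ J, ∑ j ∈ range J', (S (j + 1) \ S j).card ≤ F (s J') + F (t J') := by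
      intro J'
      induction J' with
      | zero => intro _; simp
      | succ j ih =>
        intro hj
        have hj' : j < J := by omega
        rw [sum_range_succ]
        have b1 := ih hj'.le
        have b2 := hF (s j) (t j) (hst j hj'.le)
        have b3 := hF (t j) (s (j + 1)) (hts j hj')
        have b4 := hF (s (j + 1)) (t (j + 1)) (hst (j + 1) hj)
        have b5 := hcl j hj'.le
        have b6 := hcl (j + 1) hj
        have b7 : (S (j + 1) \ S j).card ≤ (S (j + 1) \ ρ.S (s (j + 1))).card +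
            (ρ.S (s (j + 1)) \ ρ.S (t j)).card + (ρ.S (t j) \ S j).card := by
          have c1 : S (j + 1) \ S j ⊆ ((S (j + 1) \ ρ.S (s (j + 1))) ∪
              (ρ.S (s (j + 1)) \ ρ.S (t j))) ∪ (ρ.S (t j) \ S j) := by
            intro x hx
            simp only [mem_union, mem_sdiff] at hx ⊢
            tauto
          refine (card_le_card c1).trans ((card_union_le _ _).trans ?_)
          exact add_le_add (card_union_le _ _) le_rfl
        have b8 : (ρ.S (s (j + 1)) \ ρ.S (t j)).card = (ρ.S (t j) \ ρ.S (s (j + 1))).card :=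
          card_sdiff_comm ((hcard _).trans (hcard _).symm)
        have b9 : (ρ.S (t j) \ S j).card = (S j \ ρ.S (t j)).card :=
          card_sdiff_comm ((hcard _).trans (hS j hj'.le).symm)
        omega
    have b1 := key J le_rfl
    have b2 := ρ.total w hw
    have b3 : F (s J) ≤ ∑ i ∈ range (Fintype.card (GN f × GN c)), ρ.c i :=
      hFm _ _ (stg_le f c _)
    have b4 : F (t J) ≤ ∑ i ∈ range (Fintype.card (GN f × GN c)), ρ.c i :=
      hFm _ _ (stg_le f c _)
    omega

end Pool.Agent.Work.MP_e17eac_co.TROP
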