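import Pool.Agent.Work.MP_e17eac_co.Bd.B29
import Pool.Agent.Work.MP_e17eac_co.DH.Final
import Pool.Agent.Work.MP_e17eac_co.Bd.B16

/-!
Lemma 1 of note 2759 (NET FLIPS) for a `KSys` and an index window:
`|Ico p q|^3 ≤ 32768 V^3 c`, `V` = number of visited lines, `c = |S p \ S q|`.
-/
set_option autoImplicit false
set_option linter.unusedSectionVars false
set_option linter.unusedVariables false

namespace Pool.Agent.Work.MP_e17eac_co.TROP

open Finset
open Pool.Agent.Work.MP_e17eac_co.DH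
open Pool.Agent.Work.MP_e17eac_co.DH.XSWEEP (GP EE tm)

section

variable {ι : Type} [Fintype ι] [DecidableEq ι] (K : KSys ι)

theorem kS_card : ∀ n, n ≤ K.N → (K.S n).card = (K.S 0).card := by
  intro n
  induction n with
  | zero => intro _; rfl
  | succ n ih =>
    intro hn
    have haS := K.a_mem n (by omega)
    have hbS := K.b_mem n (by omega)
    rw [← ih (by omega), K.S_succ n (by omega), card_insert_of_notMem, card_erase_of_mem haS]
    · have : 0 < (K.S n).card := card_pos.2 ⟨_, haS⟩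
      omega
    · intro h
      exact hbS (mem_of_mem_erase h)

/-- the lines below an edge -/
theorem kbelow {n : ℕ} (hn : n < K.N) (l : ι) :
    K.ht l (K.t n) < K.ht (K.b n) (K.t n) ↔ l ∈ K.S n ∧ l ≠ K.a n := by
  have h1 := TLeq ι K n hn
  constructor
  · intro h
    refine ⟨?_, ?_⟩
    · by_contra hl
      have h2 := K.above n hn.le (K.t n) h1.2.2.2.1.2.1 h1.2.2.2.1.2.2 l hl
      have h3 : K.ht l (K.t n) = K.y l + K.x l * K.t n := rfl
      rw [h1.1] at h2
      rw [h1.2.2.1] at h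
      linarith
    · rintro rfl
      rw [h1.2.1, h1.2.2.1] at h
      exact lt_irrefl _ h
  · rintro ⟨hl, hla⟩
    have h2 := K.below n hn.le (K.t n) h1.2.2.2.1.2.1 h1.2.2.2.1.2.2 l hl
    have h3 : K.ht l (K.t n) = K.y l + K.x l * K.t n := rfl
    rw [h1.1] at h2
    have hlb : l ≠ K.b n := by
      rintro rfl
      exact K.b_mem n hn hl
    have h4 := K.third n hn l hla hlb
    have h5 : K.ht (K.a n) (K.t n) = K.y (K.a n) + K.x (K.a n) * K.t n := rfl
    rw [h1.2.2.1]
    refine lt_of_le_of_ne (h3 ▸ h2) ?_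
    intro h6
    apply h4
    rw [← h3, ← h5, h1.2.1]
    exact h6

theorem kt_cm (hx : Function.Injective K.x) {n : ℕ} (hn : n < K.N) :
    K.t n = XSWEEP.cm K.x K.y (K.b n) (K.a n) := by
  have h1 : K.x (K.b n) ≠ K.x (K.a n) := (K.x_lt n hn).ne
  exact XSWEEP.eq_cm h1 (K.meet n hn)

theorem kpair_inj (hx : Function.Injective K.x) {n n' : ℕ} (hn : n < K.N) (hn' : n' < K.N)
    (ha : K.a n = K.a n') (hb : K.b n = K.b n') : n = n' := by
  have h1 : K.t n = K.t n' := by rw [kt_cm K hx hn, kt_cm K hx hn', ha, hb]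
  rcases lt_trichotomy n n' with h | h | h
  · exact absurd h1 (K.t_lt n n' h hn').ne
  · exact h
  · exact absurd h1 (K.t_lt n' n h hn).ne'

end

/-- Dey's bound for edges of rank `r`, with the number `r + 1` of bottom tokens. -/
theorem dey_level {X : Type} [Fintype X] [DecidableEq X] (x y : X → ℝ)
    (h01 : ∀ i, 0 ≤ x i ∧ x i ≤ 1) (hx : Function.Injective x) (hg : GP x y) (r : ℕ)
    (F : Finset (X × X)) (hF : F ⊆ EE x y r) (hne : F.Nonempty) :
    F.card ^ 3 ≤ 4096 * (Fintype.card X ^ 3 * (r + 1)) ∧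
    r + 1 < Fintype.card X ∧
    F.card ^ 3 ≤ 4096 * (Fintype.card X ^ 3 * (Fintype.card X - (r + 1))) := by
  classical
  obtain ⟨f0, hf0⟩ := hne
  have : Nonempty X := ⟨f0.1⟩
  obtain ⟨K, hKx, hKy, hKN, hK1, hK2⟩ := PS.I_SweepAll.1 X x y r h01 hx hg
  subst hKx hKy
  have hbij : ∀ n, n < K.N → ((K.S n).erase (K.a n)).card = r := by
    intro n hn
    have h1 := (XSWEEP.mem_EE.1 (hK1 n hn).1).2
    unfold XSWEEP.cnt at h1
    simp only at h1
    rw [← h1]
    congr 1
    ext l
    simp only [mem_erase, mem_filter, mem_univ, true_and]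
    rw [← kt_cm K hx hn]
    have h2 := kbelow K hn l
    constructor
    · rintro ⟨h3, h4⟩
      exact h2.2 ⟨h4, h3⟩
    · intro h3
      have := h2.1 h3
      exact ⟨this.2, this.1⟩
  obtain ⟨n0, hn0, -⟩ := hK2 f0 (hF hf0)
  have hS0 : (K.S 0).card = r + 1 := by
    rw [← kS_card K n0 hn0.le, ← hbij n0 hn0, card_erase_of_mem (K.a_mem n0 hn0)]
    have : 0 < (K.S n0).card := card_pos.2 ⟨_, K.a_mem n0 hn0⟩
    omega
  have hlt : r + 1 < Fintype.card X := by
    rw [← hS0, ← kS_card K n0 hn0.le, ← card_univ]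
    apply card_lt_card
    refine ⟨subset_univ _, fun h => K.b_mem n0 hn0 (h (mem_univ _))⟩
  let E : Finset ℕ := (range K.N).filter fun n => (K.b n, K.a n) ∈ F
  have hE : ∀ n ∈ E, n < K.N := fun n hn => by
    have := (mem_filter.1 hn).1
    exact mem_range.1 this
  have hFE : F.card ≤ E.card := by
    have h1 : F ⊆ E.image fun n => (K.b n, K.a n) := by
      intro e he
      obtain ⟨n, hn, hn'⟩ := hK2 e (hF he)
      exact mem_image.2 ⟨n, mem_filter.2 ⟨mem_range.2 hn, by rw [hn']; exact he⟩, hn'⟩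
    exact (card_le_card h1).trans card_image_le
  have hA : (E.image K.a).card ≤ Fintype.card X := card_le_univ _
  have hB : (E.image K.b).card ≤ Fintype.card X := card_le_univ _
  have hTB : (E.image K.tokB).card ≤ r + 1 := by
    rw [← hS0]
    refine card_le_card fun τ hτ => ?_
    obtain ⟨n, hn, rfl⟩ := mem_image.1 hτ
    exact (TTok X K n (hE n hn)).1
  have hTT : (E.image K.tokT).card ≤ Fintype.card X - (r + 1) := by
    rw [← hS0, ← card_compl]
    refine card_le_card fun τ hτ => ?_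
    obtain ⟨n, hn, rfl⟩ := mem_image.1 hτ
    exact mem_compl.2 (TTok X K n (hE n hn)).2.1
  have hTB' : (E.image K.tokB).card ≤ Fintype.card X := card_le_univ _
  have hTT' : (E.image K.tokT).card ≤ Fintype.card X := card_le_univ _
  have hn1 : 1 ≤ Fintype.card X := by omega
  set n := Fintype.card X with hn
  have hmain : ∀ c : ℕ, 1 ≤ c → (E.image K.tokB).card * (E.image K.tokT).card ≤ n * c →
      F.card ^ 3 ≤ 4096 * (n ^ 3 * c) := by
    intro c hc hprod
    have hFc : F.card ^ 3 ≤ E.card ^ 3 := Nat.pow_le_pow_left hFE 3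
    refine hFc.trans ?_
    by_cases h16 : 16 * (E.image K.a).card ≤ E.card ∧ 16 * (E.image K.b).card ≤ E.card
    · have h1 := TDey X K hx E hE h16.1 h16.2
      calc E.card ^ 3 ≤ 2048 * ((E.image K.a).card * (E.image K.b).card *
            ((E.image K.tokB).card * (E.image K.tokT).card)) := h1
        _ ≤ 2048 * (n * n * (n * c)) := by
            refine Nat.mul_le_mul_left _ (Nat.mul_le_mul (Nat.mul_le_mul hA hB) hprod)
        _ = 2048 * (n ^ 3 * c) := by ring
        _ ≤ 4096 * (n ^ 3 * c) := Nat.mul_le_mul_right _ (by norm_num)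
    · have h2 : E.card ≤ 16 * n := by
        rw [not_and_or] at h16
        rcases h16 with h | h <;> omega
      calc E.card ^ 3 ≤ (16 * n) ^ 3 := Nat.pow_le_pow_left h2 3
        _ = 4096 * (n ^ 3 * 1) := by ring
        _ ≤ 4096 * (n ^ 3 * c) := Nat.mul_le_mul_left _ (Nat.mul_le_mul_left _ hc)
  refine ⟨hmain (r + 1) (by omega) ?_, hlt, hmain (n - (r + 1)) (by omega) ?_⟩
  · rw [mul_comm n]
    exact Nat.mul_le_mul hTB hTT'
  · exact Nat.mul_le_mul hTB' hTT

section

variable {ι : Type} [Fintype ι] [DecidableEq ι] (K : KSys ι)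

theorem kS_a {n : ℕ} (hn : n < K.N) : K.a n ∉ K.S (n + 1) := by
  rw [K.S_succ n hn, mem_insert, mem_erase]
  rintro (h | h)
  · exact K.b_mem n hn (h ▸ K.a_mem n hn)
  · exact h.1 rfl

theorem kS_b {n : ℕ} (hn : n < K.N) : K.b n ∈ K.S (n + 1) := by
  rw [K.S_succ n hn]
  exact mem_insert_self _ _

/-- Dey's bound for edges whose lines belong to `Z`, `c` lines of `Z` are in the bottom set -/
theorem kZ (hx : Function.Injective K.x) (hg : GP K.x K.y) (Z : Finset ι) (E : Finset ℕ) (c : ℕ)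
    (hE : ∀ n ∈ E, n < K.N ∧ K.a n ∈ Z ∧ K.b n ∈ Z ∧ (K.S n ∩ Z).card = c) :
    E.card ^ 3 ≤ 4096 * (Z.card ^ 3 * c) ∧ E.card ^ 3 ≤ 4096 * (Z.card ^ 3 * (Z.card - c)) := by
  classical
  rcases E.eq_empty_or_nonempty with rfl | ⟨n0, hn0⟩
  · simp
  let F : Finset ({i // i ∈ Z} × {i // i ∈ Z}) :=
    univ.filter fun e => ∃ n ∈ E, K.b n = e.1.1 ∧ K.a n = e.2.1
  have hcard : Fintype.card {i // i ∈ Z} = Z.card := by simp
  have hEF : E.card ≤ F.card := by
    have h1 : (E.image fun n => (K.b n, K.a n)).card = E.card := by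
      apply card_image_of_injOn
      intro n hn n' hn' h
      exact kpair_inj K hx (hE n hn).1 (hE n' hn').1 (Prod.ext_iff.1 h).2 (Prod.ext_iff.1 h).1
    rw [← h1]
    refine card_le_card_of_surjOn (fun e : {i // i ∈ Z} × {i // i ∈ Z} => (e.1.1, e.2.1)) ?_
    intro e he
    obtain ⟨n, hn, rfl⟩ := mem_image.1 (mem_coe.1 he)
    refine ⟨(⟨K.b n, (hE n hn).2.2.1⟩, ⟨K.a n, (hE n hn).2.1⟩), ?_, rfl⟩
    exact mem_coe.2 (mem_filter.2 ⟨mem_univ _, n, hn, rfl, rfl⟩)
  have hc1 : 1 ≤ c := by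
    rw [← (hE n0 hn0).2.2.2]
    exact card_pos.2 ⟨_, mem_inter.2 ⟨K.a_mem n0 (hE n0 hn0).1, (hE n0 hn0).2.1⟩⟩
  have hFsub : F ⊆ EE (fun i : {i // i ∈ Z} => K.x i.1) (fun i => K.y i.1) (c - 1) := by
    intro e he
    obtain ⟨n, hn, hb, ha⟩ := (mem_filter.1 he).2
    have h1 := (hE n hn).1
    rw [XSWEEP.mem_EE]
    constructor
    · rw [← hb, ← ha]
      exact K.x_lt n h1
    · have hcm : XSWEEP.cm (fun i : {i // i ∈ Z} => K.x i.1) (fun i => K.y i.1) e.1 e.2 = K.t n := by
        rw [kt_cm K hx h1, hb, ha]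
        rfl
      unfold XSWEEP.cnt
      rw [hcm]
      have h2 : (univ.filter fun l : {i // i ∈ Z} =>
          XSWEEP.ht (fun i : {i // i ∈ Z} => K.x i.1) (fun i => K.y i.1) l (K.t n) <
            XSWEEP.ht (fun i : {i // i ∈ Z} => K.x i.1) (fun i => K.y i.1) e.1 (K.t n)) =
          univ.filter fun l : {i // i ∈ Z} => l.1 ∈ (K.S n).erase (K.a n) := by
        ext l
        simp only [mem_filter, mem_univ, true_and, mem_erase]
        have h3 := kbelow K h1 l.1
        rw [hb] at h3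
        constructor
        · intro h4
          have := h3.1 h4
          exact ⟨this.2, this.1⟩
        · rintro ⟨h4, h5⟩
          exact h3.2 ⟨h5, h4⟩
      rw [h2, kcard', erase_inter, card_erase_of_mem
        (mem_inter.2 ⟨K.a_mem n h1, (hE n hn).2.1⟩), (hE n hn).2.2.2]
  have hFne : F.Nonempty := by
    rw [← card_pos]
    have : 0 < E.card := card_pos.2 ⟨n0, hn0⟩
    omega
  have hgZ : GP (fun i : {i // i ∈ Z} => K.x i.1) (fun i => K.y i.1) := fun i j l h1 h2 h3 =>
    hg i.1 j.1 l.1 (fun h => h1 (Subtype.ext h)) (fun h => h2 (Subtype.ext h))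
      (fun h => h3 (Subtype.ext h))
  have h5 := dey_level (fun i : {i // i ∈ Z} => K.x i.1) (fun i => K.y i.1)
    (fun i => ⟨K.x_nonneg i.1, K.x_le_one i.1⟩) (fun i j h => Subtype.ext (hx h)) hgZ (c - 1) F
    hFsub hFne
  have h6 : c - 1 + 1 = c := by omega
  rw [hcard, h6] at h5
  have h7 : E.card ^ 3 ≤ F.card ^ 3 := Nat.pow_le_pow_left hEF 3
  exact ⟨h7.trans h5.1, h7.trans h5.2.2⟩

/-- lines which are below at both ends are below the lines which are above at both ends -/
theorem korder (hx : Function.Injective K.x) {p q : ℕ} (hq : q ≤ K.N) {y z : ι}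
    (hy : y ∈ K.S p) (hy' : y ∈ K.S q) (hz : z ∉ K.S p) (hz' : z ∉ K.S q) {n : ℕ} (hpn : p ≤ n)
    (hnq : n ≤ q) (h : z ∈ K.S n) : y ∈ K.S n := by
  by_contra hyn
  have h1 : p < n := by
    rcases hpn.lt_or_eq with h1 | h1
    · exact h1
    · rw [h1] at hz
      exact absurd h hz
  have h2 : n < q := by
    rcases hnq.lt_or_eq with h1 | h1
    · exact h1
    · rw [← h1] at hz'
      exact absurd h hz'
  have v1 := (TLeq ι K p (by omega)).2.2.2.1
  have v2 := (TLeq ι K (q - 1) (by omega)).2.2.2.2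
  have v3 := (TLeq ι K (n - 1) (by omega)).2.2.2.2
  have v4 := (TLeq ι K n (by omega)).2.2.2.1
  have e2 : q - 1 + 1 = q := by omega
  have e3 : n - 1 + 1 = n := by omega
  rw [e2] at v2
  rw [e3] at v3
  have a1 := K.below p v1.1 _ v1.2.1 v1.2.2 y hy
  have a2 := K.above p v1.1 _ v1.2.1 v1.2.2 z hz
  have a3 := K.below q v2.1 _ v2.2.1 v2.2.2 y hy'
  have a4 := K.above q v2.1 _ v2.2.1 v2.2.2 z hz'
  have a5 := K.below n v3.1 _ v3.2.1 v3.2.2 z h
  have a6 := K.above n v3.1 _ v3.2.1 v3.2.2 y hyn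
  have a7 := K.below n v4.1 _ v4.2.1 v4.2.2 z h
  have a8 := K.above n v4.1 _ v4.2.1 v4.2.2 y hyn
  have t1 : K.t p ≤ K.t (n - 1) := by
    rcases (show p ≤ n - 1 by omega).lt_or_eq with h3 | h3
    · exact (K.t_lt p (n - 1) h3 (by omega)).le
    · rw [h3]
  have t2 : K.t (n - 1) < K.t n := K.t_lt (n - 1) n (by omega) (by omega)
  have t3 : K.t n ≤ K.t (q - 1) := by
    rcases (show n ≤ q - 1 by omega).lt_or_eq with h3 | h3
    · exact (K.t_lt n (q - 1) h3 (by omega)).le
    · rw [← h3]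
  have hyz : y ≠ z := by
    rintro rfl
    exact hz hy
  rcases lt_or_gt_of_ne (fun e => hyz (hx e)) with h3 | h3
  · -- slope of z bigger
    have b1 : 0 ≤ (K.x z - K.x y) * (K.t (n - 1) - K.t p) :=
      mul_nonneg (by linarith) (by linarith)
    have b2 : 0 < (K.x z - K.x y) * (K.t n - K.t (n - 1)) :=
      mul_pos (by linarith) (by linarith)
    nlinarith
  · have b1 : 0 ≤ (K.x y - K.x z) * (K.t (q - 1) - K.t n) :=
      mul_nonneg (by linarith) (by linarith)
    have b2 : 0 < (K.x y - K.x z) * (K.t n - K.t (n - 1)) :=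
      mul_pos (by linarith) (by linarith)
    nlinarith

/-- **NET FLIPS.** -/
theorem knet (hx : Function.Injective K.x) (hg : GP K.x K.y) {p q : ℕ} (hpq : p ≤ q)
    (hq : q ≤ K.N) : (Ico p q).card ^ 3 ≤
      32768 * ((K.lines (Ico p q)).card ^ 3 * (K.S p \ K.S q).card) := by
  classical
  set W := K.lines (Ico p q) with hW
  set I := W ∩ (K.S p ∩ K.S q) with hI
  set O := W \ (K.S p ∪ K.S q) with hO
  set c := (K.S p \ K.S q).card with hc
  let E1 := (Ico p q).filter fun n => I ⊆ K.S n ∧ I ⊆ K.S (n + 1)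
  let E2 := (Ico p q).filter fun n => Disjoint (K.S n) O ∧ Disjoint (K.S (n + 1)) O
  have hst : ∀ n, p ≤ n → n ≤ q → I ⊆ K.S n ∨ Disjoint (K.S n) O := by
    intro n h1 h2
    by_cases h3 : Disjoint (K.S n) O
    · exact Or.inr h3
    · left
      rw [Finset.not_disjoint_iff] at h3
      obtain ⟨z, hz, hzO⟩ := h3
      intro y hy
      rw [hI, mem_inter, mem_inter] at hy
      rw [hO, mem_sdiff, mem_union, not_or] at hzO
      exact korder K hx hq hy.2.1 hy.2.2 hzO.2.1 hzO.2.2 h1 h2 hz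
  have hIO : ∀ x, x ∈ I → x ∉ O := by
    intro x h1 h2
    rw [hI, mem_inter, mem_inter] at h1
    rw [hO, mem_sdiff, mem_union, not_or] at h2
    exact h2.2.1 h1.2.1
  have hcov : Ico p q ⊆ E1 ∪ E2 := by
    intro n hn
    have hn' := mem_Ico.1 hn
    have hnN : n < K.N := by omega
    rw [mem_union]
    simp only [E1, E2, mem_filter]
    by_cases h1 : I ⊆ K.S n
    · by_cases h2 : I ⊆ K.S (n + 1)
      · exact Or.inl ⟨hn, h1, h2⟩
      · right
        have h3 := (hst (n + 1) (by omega) (by omega)).resolve_left h2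
        refine ⟨hn, ?_, h3⟩
        obtain ⟨i, hi, hi'⟩ := not_subset.1 h2
        have hia : i = K.a n := by
          by_contra h4
          apply hi'
          rw [K.S_succ n hnN, mem_insert, mem_erase]
          exact Or.inr ⟨h4, h1 hi⟩
        rw [Finset.disjoint_left]
        intro x hx1 hx2
        by_cases h5 : x = K.a n
        · rw [h5, ← hia] at hx2
          exact hIO i hi hx2
        · refine (Finset.disjoint_left.1 h3) ?_ hx2
          rw [K.S_succ n hnN, mem_insert, mem_erase]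
          exact Or.inr ⟨h5, hx1⟩
    · have h2 := (hst n hn'.1 hn'.2.le).resolve_left h1
      by_cases h3 : Disjoint (K.S (n + 1)) O
      · exact Or.inr ⟨hn, h2, h3⟩
      · left
        have h4 := (hst (n + 1) (by omega) (by omega)).resolve_right h3
        rw [Finset.not_disjoint_iff] at h3
        obtain ⟨z, hz, hzO⟩ := h3
        have hzb : z = K.b n := by
          by_contra h5
          rw [K.S_succ n hnN, mem_insert, mem_erase] at hz
          rcases hz with hz | hz
          · exact h5 hz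
          · exact (Finset.disjoint_left.1 h2) hz.2 hzO
        exfalso
        apply h1
        intro i hi
        have h6 := h4 hi
        rw [K.S_succ n hnN, mem_insert, mem_erase] at h6
        rcases h6 with h6 | h6
        · rw [h6, ← hzb] at hi
          exact absurd hzO (hIO z hi)
        · exact h6.2
  -- cardinalities
  have hWa : ∀ n ∈ Ico p q, K.a n ∈ W := fun n hn => mem_union_left _ (mem_image_of_mem _ hn)
  have hWb : ∀ n ∈ Ico p q, K.b n ∈ W := fun n hn => mem_union_right _ (mem_image_of_mem _ hn)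
  have hkc := kcard K (P := p) (P' := q) hq
  rw [← hW] at hkc
  have hpqW : K.S p \ K.S q ⊆ W := by
    intro i hi
    by_contra hiW
    rw [mem_sdiff, kstay K hq hiW q hpq le_rfl] at hi
    exact hi.2 hi.1
  have hqpW : K.S q \ K.S p ⊆ W := by
    intro i hi
    by_contra hiW
    rw [mem_sdiff, kstay K hq hiW q hpq le_rfl] at hi
    exact hi.2 hi.1
  have hqp : (K.S q \ K.S p).card = c := by
    rw [hc]
    apply card_sdiff_comm
    rw [kS_card K q hq, kS_card K p (by omega)]
  have hcI : (K.S p ∩ W).card = I.card + c := by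
    have h1 : K.S p ∩ W = I ∪ (K.S p \ K.S q) := by
      ext i
      rw [hI]
      simp only [mem_inter, mem_union, mem_sdiff]
      constructor
      · rintro ⟨h1, h2⟩
        by_cases h3 : i ∈ K.S q
        · exact Or.inl ⟨h2, h1, h3⟩
        · exact Or.inr ⟨h1, h3⟩
      · rintro (h1 | h1)
        · exact ⟨h1.2.1, h1.1⟩
        · exact ⟨h1.1, hpqW (mem_sdiff.2 h1)⟩
    rw [h1, card_union_of_disjoint]
    rw [Finset.disjoint_left]
    intro i h2 h3
    rw [hI, mem_inter, mem_inter] at h2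
    exact (mem_sdiff.1 h3).2 h2.2.2
  have hcO : (W \ O).card = (K.S p ∩ W).card + c := by
    have h1 : W \ O = (K.S p ∩ W) ∪ (K.S q \ K.S p) := by
      ext i
      rw [hO]
      simp only [mem_inter, mem_union, mem_sdiff, not_and, not_not, not_or]
      constructor
      · rintro ⟨h1, h2⟩
        by_cases h3 : i ∈ K.S p
        · exact Or.inl ⟨h3, h1⟩
        · exact Or.inr ⟨h2 h1 h3, h3⟩
      · rintro (h1 | h1)
        · exact ⟨h1.2, fun _ h => absurd h1.1 h⟩
        · exact ⟨hqpW (mem_sdiff.2 h1), fun _ _ => h1.1⟩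
    rw [h1, card_union_of_disjoint, hqp]
    rw [Finset.disjoint_left]
    intro i h2 h3
    exact (mem_sdiff.1 h3).2 (mem_inter.1 h2).1
  have hE1 : E1.card ^ 3 ≤ 4096 * (W.card ^ 3 * c) := by
    have h1 := (kZ K hx hg (W \ I) E1 c (fun n hn => by
      obtain ⟨h2, h3, h4⟩ := mem_filter.1 hn
      have h5 := mem_Ico.1 h2
      have hnN : n < K.N := by omega
      refine ⟨hnN, mem_sdiff.2 ⟨hWa n h2, fun h => kS_a K hnN (h4 h)⟩,
        mem_sdiff.2 ⟨hWb n h2, fun h => K.b_mem n hnN (h3 h)⟩, ?_⟩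
      have h6 : K.S n ∩ (W \ I) = (K.S n ∩ W) \ I := by
        ext i
        simp only [mem_inter, mem_sdiff]
        tauto
      have h7 : I ⊆ K.S n ∩ W := fun i hi => mem_inter.2 ⟨h3 hi, (mem_inter.1 hi).1⟩
      have h8 := card_sdiff_add_card_eq_card h7
      have h9 := hkc n h5.1 h5.2.le
      rw [h6]
      omega)).1
    refine h1.trans (Nat.mul_le_mul_left _ (Nat.mul_le_mul_right _ ?_))
    exact Nat.pow_le_pow_left (card_le_card sdiff_subset) 3
  have hE2 : E2.card ^ 3 ≤ 4096 * (W.card ^ 3 * c) := by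
    have h1 := (kZ K hx hg (W \ O) E2 (K.S p ∩ W).card (fun n hn => by
      obtain ⟨h2, h3, h4⟩ := mem_filter.1 hn
      have h5 := mem_Ico.1 h2
      have hnN : n < K.N := by omega
      refine ⟨hnN, mem_sdiff.2 ⟨hWa n h2, fun h =>
        (Finset.disjoint_left.1 h3) (K.a_mem n hnN) h⟩,
        mem_sdiff.2 ⟨hWb n h2, fun h => (Finset.disjoint_left.1 h4) (kS_b K hnN) h⟩, ?_⟩
      have h6 : K.S n ∩ (W \ O) = K.S n ∩ W := by
        ext i
        simp only [mem_inter, mem_sdiff]
        constructor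
        · tauto
        · rintro ⟨h7, h8⟩
          exact ⟨h7, h8, fun h => (Finset.disjoint_left.1 h3) h7 h⟩
      rw [h6]
      exact hkc n h5.1 h5.2.le)).2
    rw [hcO, Nat.add_sub_cancel_left] at h1
    refine h1.trans (Nat.mul_le_mul_left _ (Nat.mul_le_mul_right _ ?_))
    rw [← hcO]
    exact Nat.pow_le_pow_left (card_le_card sdiff_subset) 3
  have h1 : (Ico p q).card ≤ E1.card + E2.card :=
    (card_le_card hcov).trans (card_union_le _ _)
  have h2 : ∀ u v : ℕ, (u + v) ^ 3 ≤ 4 * (u ^ 3 + v ^ 3) := by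
    intro u v
    zify
    have hu : (0 : ℤ) ≤ u := Int.natCast_nonneg _
    have hv : (0 : ℤ) ≤ v := Int.natCast_nonneg _
    nlinarith [mul_nonneg (add_nonneg hu hv) (sq_nonneg ((u : ℤ) - v))]
  calc (Ico p q).card ^ 3 ≤ (E1.card + E2.card) ^ 3 := Nat.pow_le_pow_left h1 3
    _ ≤ 4 * (E1.card ^ 3 + E2.card ^ 3) := h2 _ _
    _ ≤ 4 * (4096 * (W.card ^ 3 * c) + 4096 * (W.card ^ 3 * c)) :=
        Nat.mul_le_mul_left _ (add_le_add hE1 hE2)
    _ = 32768 * (W.card ^ 3 * c) := by ring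

end

end Pool.Agent.Work.MP_e17eac_co.TROP
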